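import Pool.Agent.Q279.F4.Init

/-!
# Coloured 4-ary partition counts: unbounded 4-divisibility for `m ≡ 6 (mod 8)`
-/

set_option autoImplicit false

namespace Pool.Agent.Results.MP_53b42b_nt.Unbounded

open PowerSeries

/-- The power series `1 / (1 - x ^ j) = 1 + x ^ j + x ^ (2 j) + ...` with natural number coefficients. -/
def geo (j : ℕ) : PowerSeries ℕ := PowerSeries.mk fun n => if j ∣ n then 1 else 0

/-- `S k m n` is the coefficient of `x ^ n` in `(1 - x) ^ (-m) * ∏_{i ≥ 0} (1 - x ^ (k ^ i)) ^ (-m (k - 1))`;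
the factors with `i > n` have `k ^ i > n` and do not influence this coefficient. -/
noncomputable def S (k m n : ℕ) : ℕ :=
  coeff n (geo 1 ^ m * ∏ i ∈ Finset.range (n + 1), geo (k ^ i) ^ (m * (k - 1)))

theorem map_geo (j : ℕ) : PowerSeries.map (Nat.castRingHom ℤ) (geo j) = Q264.Quad.geo j := by
  ext n
  rw [coeff_map, geo, coeff_mk, Q264.Quad.coeff_geo]
  split_ifs <;> simp

theorem cast_S (m n : ℕ) : (S 4 m n : ℤ) = Q264.Quad.SZ m n := by
  have h : (S 4 m n : ℤ) = coeff n (PowerSeries.map (Nat.castRingHom ℤ)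
      (geo 1 ^ m * ∏ i ∈ Finset.range (n + 1), geo (4 ^ i) ^ (m * (4 - 1)))) := by
    rw [coeff_map]; rfl
  rw [h, map_mul, map_pow, map_prod, map_geo]
  simp only [map_pow, map_geo]
  rfl

theorem const_geo (j : ℕ) : constantCoeff (geo j) = 1 := by
  rw [← coeff_zero_eq_constantCoeff_apply, geo, coeff_mk, if_pos (dvd_zero j)]

theorem S_pos (m n : ℕ) (hm : 0 < m) : 0 < S 4 m n := by
  have h0 : ∀ (f g : PowerSeries ℕ) (k : ℕ), constantCoeff g = 1 → coeff k f ≤ coeff k (f * g) := by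
    intro f g k hg
    rw [coeff_mul]
    have := Finset.single_le_sum (f := fun p : ℕ × ℕ => coeff p.1 f * coeff p.2 g)
      (fun p _ => Nat.zero_le _) (show (k, 0) ∈ Finset.HasAntidiagonal.antidiagonal k by simp)
    rwa [coeff_zero_eq_constantCoeff_apply, hg, mul_one] at this
  have h1 : 1 ≤ coeff n (geo 1 ^ m) := by
    obtain ⟨k, rfl⟩ : ∃ k, m = k + 1 := ⟨m - 1, by omega⟩
    rw [pow_succ']
    refine le_trans ?_ (h0 (geo 1) (geo 1 ^ k) n (by rw [map_pow, const_geo, one_pow]))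
    rw [geo, coeff_mk, if_pos (one_dvd n)]
  refine lt_of_lt_of_le Nat.zero_lt_one (h1.trans (h0 _ _ n ?_))
  rw [map_prod]
  simp [const_geo]

/-- For every positive `m ≡ 6 (mod 8)` and every `B` there is `n` such that `4 ^ B` divides the positive integer
`S_{4,m}(n)`. -/
theorem result : ∀ m : ℕ, 0 < m → m % 8 = 6 → ∀ B : ℕ, ∃ n : ℕ, 0 < S 4 m n ∧ 4 ^ B ∣ S 4 m n := by
  intro m hm h6 B
  obtain ⟨n, hn⟩ := Q279.F4.main m h6 B
  refine ⟨n, S_pos m n hm, ?_⟩
  rw [← cast_S] at hn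
  exact_mod_cast hn

end Pool.Agent.Results.MP_53b42b_nt.Unbounded
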